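import Pool.Agent.Lib.MP_56c207_gt.Defs
import Pool.Agent.Lib.MP_56c207_gt.C6

set_option autoImplicit false

namespace Pool.Agent.Results.MP_56c207_gt.Classification

open Pool.Agent.Lib.MP_56c207_gt Set

/-- For every closed `X` containing `0`, not accumulating at `1` and not contained in `{0, 1}`, a
smooth endpoint-homogeneous `X`-EPG fan exists, and it is unique up to homeomorphism exactly when
`X \ {0, 1}` is a closed interval or a point. In particular uniqueness fails for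
`X = {0, 1/3, 2/3}`. -/
theorem result :
    ∀ X : Set unitInterval, IsClosed X → 0 ∈ X → 1 ∉ closure (X \ {1}) → (X \ {0, 1}).Nonempty →
      (∃ (F : Type) (_ : MetricSpace F) (t : F),
        IsFan F t ∧ IsSmooth F t ∧ IsEndpointHomogeneous F ∧ IsEPG F t X) ∧
      ((∀ (F G : Type) [MetricSpace F] [MetricSpace G] (t : F) (u : G),
        IsFan F t ∧ IsSmooth F t ∧ IsEndpointHomogeneous F ∧ IsEPG F t X →
        IsFan G u ∧ IsSmooth G u ∧ IsEndpointHomogeneous G ∧ IsEPG G u X →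
        Nonempty (F ≃ₜ G)) ↔ ∃ a b : unitInterval, X \ {0, 1} = Icc a b) := by
  intro X hc h0 h1 hne
  have hc' : IsClosed (X \ {1}) := isClosed_of_closure_subset fun x hx =>
    ⟨closure_minimal sdiff_subset hc hx, fun c => h1 (c ▸ hx)⟩
  obtain ⟨β, hβ⟩ := hc'.isCompact.exists_isGreatest ⟨0, h0, zero_ne_one⟩
  have hb : β ≠ 0 := by
    obtain ⟨x, hx, hx'⟩ := hne
    rintro rfl
    exact hx' (Or.inl (le_antisymm (hβ.2 ⟨hx, fun c => hx' (Or.inr c)⟩) unitInterval.nonneg'))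
  obtain ⟨D, hD, d0, d1⟩ := Cl.exists_model (u := 0) (p := 0) (q := β) hc' h0 hβ
    ⟨h0, zero_ne_one⟩ le_rfl (lt_of_le_of_ne β.2.1 fun c => hb (Subtype.ext c.symm)) le_rfl
    fun r _ => by rw [Cl.ramp, zero_mul]; exact ⟨h0, zero_ne_one⟩
  refine ⟨⟨_, _, _, hD.all⟩, fun h => by_contra fun hX => ?_, fun ⟨a, b, hI⟩ F G _ _ t u hF hG =>
    Cl.unique_of_Icc h0 (nonempty_Icc.1 (hI ▸ hne)) hI hF hG⟩
  obtain ⟨u, p, q, a1, a2, a3, a4, a5, a6⟩ :=
    Cl.exists_ramp hc' h0 hβ hb fun ⟨a, b, _, hI⟩ => hX ⟨a, b, hI⟩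
  obtain ⟨D', hD', e0, -⟩ := Cl.exists_model hc' h0 hβ a2 a3 a4 a5 a6
  obtain ⟨g⟩ := h _ _ _ _ hD.all hD'.all
  exact (Cl.MD.not_homeo hD hD' hβ (fun m => by cases m; exacts [d0, d1 _])
    (m := 0) (e0 ▸ a1)).false g

end Pool.Agent.Results.MP_56c207_gt.Classification
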